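import Pool.Agent.KDT.StmtsM

/-!
Squad KDT (MP_160b6c_nt), block Z, row CPP: the composition is rational of bounded degree.
-/

set_option autoImplicit false

namespace Pool.Agent.KDT.H66

open Pool.Agent.KDT.Z

section ring

variable {A : Type} [CommRing A]

/-- `rr` over a ring. -/
def pr (q t : Fin 4 → A) : A :=
  (q 1 - t 1) ^ 2 + (t 0 - q 0) * (q 1 - t 1) * t 0 + (t 0 - q 0) ^ 2 * t 1

/-- `ro` over a ring. -/
def po (q t : Fin 4 → A) : A := (t 3 - q 3) * (q 1 - t 1) - (t 0 - q 0) * (t 2 - q 2)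

/-- `mu` over a ring. -/
def pm (q t : Fin 4 → A) : A :=
  ((t 0 - q 0) * t 0 + (q 1 - t 1)) * (t 2 - q 2) + (t 0 - q 0) * t 1 * (t 3 - q 3)

/-- The numerator of `cs`, denominator `ro ^ 2`. -/
def ns (q t : Fin 4 → A) : A :=
  po q t ^ 2 * (-q 0 - t 0) - 2 * po q t * (pm q t - q 0 * po q t) + pr q t ^ 2

/-- The numerator of `cp`, denominator `ro ^ 2`. -/
def np (f4 : A) (q t : Fin 4 → A) : A :=
  (pm q t - q 0 * po q t) ^ 2 + 2 * po q t * (q 3 * pr q t + q 1 * po q t - q 0 * pm q t) -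
    f4 * pr q t ^ 2 - ns q t * (q 0 + t 0) - po q t ^ 2 * (q 1 + t 1 + q 0 * t 0)

/-- The common denominator. -/
def dn (q t : Fin 4 → A) : A := pr q t * po q t ^ 4

/-- The numerators. -/
def nn (f4 : A) (q t : Fin 4 → A) : Fin 4 → A :=
  ![ns q t * (pr q t * po q t ^ 2), np f4 q t * (pr q t * po q t ^ 2),
    po q t * ns q t * np f4 q t + (pm q t - q 0 * po q t) * np f4 q t * po q t ^ 2 -
      (q 2 * pr q t + q 1 * pm q t) * po q t ^ 4,
    -(po q t * (ns q t ^ 2 - np f4 q t * po q t ^ 2) +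
      (pm q t - q 0 * po q t) * ns q t * po q t ^ 2 +
      (q 3 * pr q t + q 1 * po q t - q 0 * pm q t) * po q t ^ 4)]

variable {B : Type} [CommRing B] (φ : A →+* B)

lemma map_pr (q t : Fin 4 → A) : φ (pr q t) = pr (fun i => φ (q i)) (fun i => φ (t i)) := by
  simp only [pr, map_add, map_mul, map_sub, map_pow]

lemma map_po (q t : Fin 4 → A) : φ (po q t) = po (fun i => φ (q i)) (fun i => φ (t i)) := by
  simp only [po, map_mul, map_sub]

lemma map_pm (q t : Fin 4 → A) : φ (pm q t) = pm (fun i => φ (q i)) (fun i => φ (t i)) := by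
  simp only [pm, map_add, map_mul, map_sub]

lemma map_ns (q t : Fin 4 → A) : φ (ns q t) = ns (fun i => φ (q i)) (fun i => φ (t i)) := by
  simp only [ns, map_add, map_mul, map_sub, map_pow, map_neg, map_pr, map_po, map_pm, map_ofNat]

lemma map_np (f4 : A) (q t : Fin 4 → A) :
    φ (np f4 q t) = np (φ f4) (fun i => φ (q i)) (fun i => φ (t i)) := by
  simp only [np, map_add, map_mul, map_sub, map_pow, map_pr, map_po, map_pm, map_ns,
    map_ofNat]

lemma map_dn (q t : Fin 4 → A) : φ (dn q t) = dn (fun i => φ (q i)) (fun i => φ (t i)) := by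
  simp only [dn, map_mul, map_pow, map_pr, map_po]

lemma map_nn (f4 : A) (q t : Fin 4 → A) (i : Fin 4) :
    φ (nn f4 q t i) = nn (φ f4) (fun i => φ (q i)) (fun i => φ (t i)) i := by
  fin_cases i
  · change φ (ns q t * (pr q t * po q t ^ 2)) = ns _ _ * (pr _ _ * po _ _ ^ 2)
    simp only [map_mul, map_pow, map_pr, map_po, map_ns]
  · change φ (np f4 q t * (pr q t * po q t ^ 2)) = np _ _ _ * (pr _ _ * po _ _ ^ 2)
    simp only [map_mul, map_pow, map_pr, map_po, map_np]
  · change φ (po q t * ns q t * np f4 q t + (pm q t - q 0 * po q t) * np f4 q t * po q t ^ 2 -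
      (q 2 * pr q t + q 1 * pm q t) * po q t ^ 4) = po _ _ * ns _ _ * np _ _ _ +
      (pm _ _ - _ * po _ _) * np _ _ _ * po _ _ ^ 2 - (_ * pr _ _ + _ * pm _ _) * po _ _ ^ 4
    simp only [map_add, map_sub, map_mul, map_pow, map_pr, map_po, map_pm, map_ns, map_np]
  · change φ (-(po q t * (ns q t ^ 2 - np f4 q t * po q t ^ 2) +
      (pm q t - q 0 * po q t) * ns q t * po q t ^ 2 +
      (q 3 * pr q t + q 1 * po q t - q 0 * pm q t) * po q t ^ 4)) =
      -(po _ _ * (ns _ _ ^ 2 - np _ _ _ * po _ _ ^ 2) +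
      (pm _ _ - _ * po _ _) * ns _ _ * po _ _ ^ 2 +
      (_ * pr _ _ + _ * po _ _ - _ * pm _ _) * po _ _ ^ 4)
    simp only [map_add, map_sub, map_mul, map_pow, map_neg, map_pr, map_po, map_pm, map_ns,
      map_np]

end ring

section field

variable {E : Type} [Field E]

lemma cs_eq (q t : Fin 4 → E) (hr : rr q t ≠ 0) (ho : ro q t ≠ 0) :
    cs q t = ns q t / po q t ^ 2 := by
  have h1 : po q t ≠ 0 := ho
  have h2 : pr q t ≠ 0 := hr
  change -q 0 - t 0 - (2 * (po q t / pr q t) * ((pm q t - q 0 * po q t) / pr q t) - 1) /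
    (po q t / pr q t) ^ 2 = _
  unfold ns
  generalize pr q t = r at *
  generalize po q t = o at *
  generalize pm q t = m at *
  field_simp
  ring

lemma cp_eq (f4 : E) (q t : Fin 4 → E) (hr : rr q t ≠ 0) (ho : ro q t ≠ 0) :
    cp f4 q t = np f4 q t / po q t ^ 2 := by
  have h1 : po q t ≠ 0 := ho
  have h2 : pr q t ≠ 0 := hr
  unfold cp
  rw [cs_eq q t hr ho]
  change (((pm q t - q 0 * po q t) / pr q t) ^ 2 + 2 * (po q t / pr q t) *
    (q 3 + (q 1 * po q t - q 0 * pm q t) / pr q t) - f4) / (po q t / pr q t) ^ 2 -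
    ns q t / po q t ^ 2 * (q 0 + t 0) - (q 1 + t 1 + q 0 * t 0) = _
  unfold np
  generalize ns q t = n at *
  generalize pr q t = r at *
  generalize po q t = o at *
  generalize pm q t = m at *
  field_simp
  ring

lemma cmp_eq (f4 : E) (q t : Fin 4 → E) (hr : rr q t ≠ 0) (ho : ro q t ≠ 0) (i : Fin 4) :
    cmp f4 q t i = nn f4 q t i / dn q t := by
  have h1 : po q t ≠ 0 := ho
  have h2 : pr q t ≠ 0 := hr
  fin_cases i
  · change cs q t = ns q t * (pr q t * po q t ^ 2) / (pr q t * po q t ^ 4)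
    rw [cs_eq q t hr ho]
    field_simp
  · change cp f4 q t = np f4 q t * (pr q t * po q t ^ 2) / (pr q t * po q t ^ 4)
    rw [cp_eq f4 q t hr ho]
    field_simp
  · change po q t / pr q t * cs q t * cp f4 q t +
      (pm q t - q 0 * po q t) / pr q t * cp f4 q t - (q 2 + q 1 * pm q t / pr q t) =
      (po q t * ns q t * np f4 q t + (pm q t - q 0 * po q t) * np f4 q t * po q t ^ 2 -
      (q 2 * pr q t + q 1 * pm q t) * po q t ^ 4) / (pr q t * po q t ^ 4)
    rw [cs_eq q t hr ho, cp_eq f4 q t hr ho]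
    generalize np f4 q t = n1 at *
    generalize ns q t = n at *
    generalize pr q t = r at *
    generalize po q t = o at *
    generalize pm q t = m at *
    field_simp
  · change -(po q t / pr q t * (cs q t ^ 2 - cp f4 q t) +
      (pm q t - q 0 * po q t) / pr q t * cs q t +
      (q 3 + (q 1 * po q t - q 0 * pm q t) / pr q t)) =
      -(po q t * (ns q t ^ 2 - np f4 q t * po q t ^ 2) +
      (pm q t - q 0 * po q t) * ns q t * po q t ^ 2 +
      (q 3 * pr q t + q 1 * po q t - q 0 * pm q t) * po q t ^ 4) / (pr q t * po q t ^ 4)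
    rw [cs_eq q t hr ho, cp_eq f4 q t hr ho]
    generalize np f4 q t = n1 at *
    generalize ns q t = n at *
    generalize pr q t = r at *
    generalize po q t = o at *
    generalize pm q t = m at *
    field_simp
    ring

end field

section degree

open MvPolynomial

variable {F : Type} [Field F]

/-- Bounded total degree. -/
def Dg (n : ℕ) (P : MvPolynomial (Fin 4) F) : Prop := P.totalDegree ≤ n

lemma Dg.mono {m n : ℕ} {P : MvPolynomial (Fin 4) F} (h : Dg m P) (hmn : m ≤ n) : Dg n P :=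
  le_trans h hmn

lemma Dg.add {m n : ℕ} {P Q : MvPolynomial (Fin 4) F} (h : Dg m P) (h' : Dg n Q) :
    Dg (max m n) (P + Q) :=
  (totalDegree_add P Q).trans (max_le_max h h')

lemma Dg.sub {m n : ℕ} {P Q : MvPolynomial (Fin 4) F} (h : Dg m P) (h' : Dg n Q) :
    Dg (max m n) (P - Q) :=
  (totalDegree_sub P Q).trans (max_le_max h h')

lemma Dg.neg {m : ℕ} {P : MvPolynomial (Fin 4) F} (h : Dg m P) : Dg m (-P) := by
  unfold Dg
  rw [totalDegree_neg]
  exact h

lemma Dg.mul {m n : ℕ} {P Q : MvPolynomial (Fin 4) F} (h : Dg m P) (h' : Dg n Q) :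
    Dg (m + n) (P * Q) :=
  (totalDegree_mul P Q).trans (Nat.add_le_add h h')

lemma Dg.pow {m : ℕ} {P : MvPolynomial (Fin 4) F} (h : Dg m P) (k : ℕ) : Dg (k * m) (P ^ k) :=
  (totalDegree_pow P k).trans (Nat.mul_le_mul_left k h)

lemma Dg.C (a : F) : Dg 0 (MvPolynomial.C a : MvPolynomial (Fin 4) F) := by
  unfold Dg
  rw [totalDegree_C]

lemma Dg.X (i : Fin 4) : Dg 1 (MvPolynomial.X i : MvPolynomial (Fin 4) F) := by
  unfold Dg
  rw [totalDegree_X]

lemma Dg.two : Dg 0 (2 : MvPolynomial (Fin 4) F) := by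
  have h := Dg.C (2 : F)
  rw [map_ofNat] at h
  exact h

/-- The variables. -/
noncomputable def vq (F : Type) [Field F] : Fin 4 → MvPolynomial (Fin 4) F := fun i => MvPolynomial.X i

/-- The constants. -/
noncomputable def vt (t : Fin 4 → F) : Fin 4 → MvPolynomial (Fin 4) F := fun i => MvPolynomial.C (t i)

lemma dq (i : Fin 4) : Dg 1 (vq F i) := Dg.X i

lemma dt (t : Fin 4 → F) (i : Fin 4) : Dg 0 (vt t i) := Dg.C _

lemma d_pr (t : Fin 4 → F) : Dg 2 (pr (vq F) (vt t)) := by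
  unfold pr
  exact (((((dq 1).sub (dt t 1)).pow 2).add
    ((((dt t 0).sub (dq 0)).mul ((dq 1).sub (dt t 1))).mul (dt t 0))).add
    ((((dt t 0).sub (dq 0)).pow 2).mul (dt t 1))).mono (by decide)

lemma d_po (t : Fin 4 → F) : Dg 2 (po (vq F) (vt t)) := by
  unfold po
  exact ((((dt t 3).sub (dq 3)).mul ((dq 1).sub (dt t 1))).sub
    (((dt t 0).sub (dq 0)).mul ((dt t 2).sub (dq 2)))).mono (by decide)

lemma d_pm (t : Fin 4 → F) : Dg 2 (pm (vq F) (vt t)) := by
  unfold pm
  exact ((((((dt t 0).sub (dq 0)).mul (dt t 0)).add ((dq 1).sub (dt t 1))).mul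
    ((dt t 2).sub (dq 2))).add ((((dt t 0).sub (dq 0)).mul (dt t 1)).mul
    ((dt t 3).sub (dq 3)))).mono (by decide)

lemma d_m (t : Fin 4 → F) : Dg 3 (pm (vq F) (vt t) - vq F 0 * po (vq F) (vt t)) :=
  ((d_pm t).sub ((dq 0).mul (d_po t))).mono (by decide)

lemma d_ns (t : Fin 4 → F) : Dg 5 (ns (vq F) (vt t)) := by
  unfold ns
  exact (((((d_po t).pow 2).mul ((dq 0).neg.sub (dt t 0))).sub
    ((Dg.two.mul (d_po t)).mul (d_m t))).add ((d_pr t).pow 2)).mono (by decide)

lemma d_l (t : Fin 4 → F) : Dg 3 (vq F 3 * pr (vq F) (vt t) + vq F 1 * po (vq F) (vt t) -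
    vq F 0 * pm (vq F) (vt t)) :=
  ((((dq 3).mul (d_pr t)).add ((dq 1).mul (d_po t))).sub ((dq 0).mul (d_pm t))).mono (by decide)

lemma d_np (f4 : F) (t : Fin 4 → F) : Dg 6 (np (MvPolynomial.C f4) (vq F) (vt t)) := by
  unfold np
  exact ((((((d_m t).pow 2).add ((Dg.two.mul (d_po t)).mul (d_l t))).sub
    ((Dg.C f4).mul ((d_pr t).pow 2))).sub ((d_ns t).mul ((dq 0).add (dt t 0)))).sub
    (((d_po t).pow 2).mul (((dq 1).add (dt t 1)).add ((dq 0).mul (dt t 0))))).mono (by decide)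

lemma d_dn (t : Fin 4 → F) : Dg 20 (dn (vq F) (vt t)) := by
  unfold dn
  exact ((d_pr t).mul ((d_po t).pow 4)).mono (by decide)

lemma d_nn (f4 : F) (t : Fin 4 → F) (i : Fin 4) :
    Dg 20 (nn (MvPolynomial.C f4) (vq F) (vt t) i) := by
  fin_cases i
  · exact ((d_ns t).mul ((d_pr t).mul ((d_po t).pow 2))).mono (by decide)
  · exact ((d_np f4 t).mul ((d_pr t).mul ((d_po t).pow 2))).mono (by decide)
  · exact (((((d_po t).mul (d_ns t)).mul (d_np f4 t)).add
      (((d_m t).mul (d_np f4 t)).mul ((d_po t).pow 2))).sub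
      ((((dq 2).mul (d_pr t)).add ((dq 1).mul (d_pm t))).mul ((d_po t).pow 4))).mono (by decide)
  · exact ((((d_po t).mul (((d_ns t).pow 2).sub ((d_np f4 t).mul ((d_po t).pow 2)))).add
      (((d_m t).mul (d_ns t)).mul ((d_po t).pow 2))).add
      ((d_l t).mul ((d_po t).pow 4))).neg.mono (by decide)

end degree

theorem zcpp : CppStatement := by
  intro F _ f4 t
  refine ⟨nn (MvPolynomial.C f4) (vq F) (vt t), dn (vq F) (vt t), fun i => d_nn f4 t i, d_dn t,
    fun E _ _ q => ?_⟩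
  have hq : (fun i => (MvPolynomial.aeval q : MvPolynomial (Fin 4) F →ₐ[F] E).toRingHom
      (vq F i)) = q := by
    funext i
    exact MvPolynomial.aeval_X q i
  have ht : (fun i => (MvPolynomial.aeval q : MvPolynomial (Fin 4) F →ₐ[F] E).toRingHom
      (vt t i)) = emb E t := by
    funext i
    exact MvPolynomial.aeval_C q (t i)
  have hD : MvPolynomial.aeval q (dn (vq F) (vt t)) = dn q (emb E t) := by
    have h := map_dn (MvPolynomial.aeval q : MvPolynomial (Fin 4) F →ₐ[F] E).toRingHom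
      (vq F) (vt t)
    rw [hq, ht] at h
    exact h
  have hN : ∀ i, MvPolynomial.aeval q (nn (MvPolynomial.C f4) (vq F) (vt t) i) =
      nn (algebraMap F E f4) q (emb E t) i := by
    intro i
    have h := map_nn (MvPolynomial.aeval q : MvPolynomial (Fin 4) F →ₐ[F] E).toRingHom
      (MvPolynomial.C f4) (vq F) (vt t) i
    rw [hq, ht] at h
    have h2 : (MvPolynomial.aeval q : MvPolynomial (Fin 4) F →ₐ[F] E).toRingHom
      (MvPolynomial.C f4) = algebraMap F E f4 := MvPolynomial.aeval_C q f4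
    rw [h2] at h
    exact h
  have hiff : dn q (emb E t) ≠ 0 ↔ rr q (emb E t) ≠ 0 ∧ ro q (emb E t) ≠ 0 := by
    change pr q (emb E t) * po q (emb E t) ^ 4 ≠ 0 ↔ pr q (emb E t) ≠ 0 ∧ po q (emb E t) ≠ 0
    rw [mul_ne_zero_iff, pow_ne_zero_iff (by norm_num)]
  rw [hD]
  refine ⟨hiff, fun h i => ?_⟩
  rw [hN]
  obtain ⟨h1, h2⟩ := hiff.mp h
  exact cmp_eq _ q (emb E t) h1 h2 i

end Pool.Agent.KDT.H66
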